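import Pool.Agent.H113Z.Dist.Defs

namespace Pool.Agent.H113Z.Dist
open Filter Topology Set

namespace XmAux583

lemma glue1 {f g : ℝ → ℝ} {δ : ℝ} (hδ : 0 < δ)
    (hd : ∀ x ∈ Ioo (-δ) δ, x ≠ 0 → HasDerivAt f (g x) x)
    (hf : ContinuousAt f 0) (hg : ContinuousAt g 0) : HasDerivAt f (g 0) 0 := by
  have A : HasDerivWithinAt f (g 0) (Ici 0) 0 := by
    have hs : Ioo (0:ℝ) δ ∈ 𝓝[>] (0:ℝ) := Ioo_mem_nhdsGT hδ
    refine hasDerivWithinAt_Ici_of_tendsto_deriv (s := Ioo 0 δ)
      (fun y hy => (hd y ⟨by linarith [hy.1], hy.2⟩ hy.1.ne').differentiableAt.differentiableWithinAt)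
      hf.continuousWithinAt hs ?_
    refine (hg.tendsto.mono_left nhdsWithin_le_nhds).congr' ?_
    filter_upwards [hs] with y hy
    exact (hd y ⟨by linarith [hy.1], hy.2⟩ hy.1.ne').deriv.symm
  have B : HasDerivWithinAt f (g 0) (Iic 0) 0 := by
    have hs : Ioo (-δ) (0:ℝ) ∈ 𝓝[<] (0:ℝ) := Ioo_mem_nhdsLT (by linarith)
    refine hasDerivWithinAt_Iic_of_tendsto_deriv (s := Ioo (-δ) 0)
      (fun y hy => (hd y ⟨hy.1, by linarith [hy.2]⟩ hy.2.ne).differentiableAt.differentiableWithinAt)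
      hf.continuousWithinAt hs ?_
    refine (hg.tendsto.mono_left nhdsWithin_le_nhds).congr' ?_
    filter_upwards [hs] with y hy
    exact (hd y ⟨hy.1, by linarith [hy.2]⟩ hy.2.ne).deriv.symm
  simpa using B.union A

lemma glue2 {f f1 f2 : ℝ → ℝ} {δ : ℝ} (hδ : 0 < δ)
    (hd : ∀ x ∈ Ioo (-δ) δ, x ≠ 0 →
      HasDerivAt f (f1 x) x ∧ HasDerivAt f1 (f2 x) x ∧ ContinuousAt f2 x)
    (hf : ContinuousAt f 0) (hf1 : ContinuousAt f1 0) (hf2 : ContinuousAt f2 0) :
    ContDiffAt ℝ 2 f 0 ∧ HasDerivAt f (f1 0) 0 := by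
  have h0 := glue1 hδ (fun x hx h => (hd x hx h).1) hf hf1
  have h1 := glue1 hδ (fun x hx h => (hd x hx h).2.1) hf1 hf2
  have a0 : ∀ x ∈ Ioo (-δ) δ, HasDerivAt f (f1 x) x := fun x hx => by
    rcases eq_or_ne x 0 with rfl | h
    · exact h0
    · exact (hd x hx h).1
  have a1 : ∀ x ∈ Ioo (-δ) δ, HasDerivAt f1 (f2 x) x := fun x hx => by
    rcases eq_or_ne x 0 with rfl | h
    · exact h1
    · exact (hd x hx h).2.1
  have a2 : ContinuousOn f2 (Ioo (-δ) δ) := fun x hx => by
    rcases eq_or_ne x 0 with rfl | h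
    · exact hf2.continuousWithinAt
    · exact (hd x hx h).2.2.continuousWithinAt
  refine ⟨?_, h0⟩
  have c1 : ContDiffOn ℝ 1 f1 (Ioo (-δ) δ) := by
    rw [show (1 : WithTop ℕ∞) = 0 + 1 by simp, contDiffOn_succ_iff_deriv_of_isOpen isOpen_Ioo]
    refine ⟨fun x hx => (a1 x hx).differentiableAt.differentiableWithinAt, by simp, ?_⟩
    rw [contDiffOn_zero]
    exact a2.congr fun x hx => (a1 x hx).deriv
  have c2 : ContDiffOn ℝ 2 f (Ioo (-δ) δ) := by
    rw [show (2 : WithTop ℕ∞) = 1 + 1 by norm_num, contDiffOn_succ_iff_deriv_of_isOpen isOpen_Ioo]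
    refine ⟨fun x hx => (a0 x hx).differentiableAt.differentiableWithinAt, by simp, ?_⟩
    exact c1.congr fun x hx => (a0 x hx).deriv
  exact c2.contDiffAt (Ioo_mem_nhds (by linarith) hδ)

/-- first derivative in the coordinate `y` -/
noncomputable def p1 (F : ℝ → ℝ) (y : ℝ) : ℝ := deriv F y * (y / F y) ^ 2
/-- second derivative in the coordinate `y` -/
noncomputable def p2 (F : ℝ → ℝ) (y : ℝ) : ℝ :=
  -(y ^ 2 * D 2 F y) * (y / F y) ^ 2 + 2 * deriv F y * (y / F y) ^ 3 * (y * deriv F y - F y)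

lemma side {F : ℝ → ℝ} {l c : ℝ} (hl : 0 < l) (h : OC F l c) :
    (∃ δ > 0, ∀ x, 0 < x → x < δ → HasDerivAt (fun x => 1 / F (1 / x)) (p1 F (1 / x)) x ∧
      HasDerivAt (fun x => p1 F (1 / x)) (p2 F (1 / x)) x ∧
      ContinuousAt (fun x => p2 F (1 / x)) x) ∧
    Tendsto (fun y => 1 / F y) atTop (𝓝 0) ∧ Tendsto (p1 F) atTop (𝓝 (1 / l)) ∧
    Tendsto (p2 F) atTop (𝓝 (-2 * c / l ^ 2)) := by
  obtain ⟨⟨Y, hY⟩, h1, h2, h3⟩ := h
  have inv0 : Tendsto (fun y : ℝ => y⁻¹) atTop (𝓝 0) := tendsto_inv_atTop_zero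
  have r1 : Tendsto (fun y => F y / y) atTop (𝓝 l) := by
    have := ((h1.add_const c).mul inv0).add_const l
    simp only [mul_zero, zero_add] at this
    refine this.congr' ?_
    filter_upwards [eventually_gt_atTop 0] with y hy
    field_simp; ring
  have r2 : Tendsto (fun y => y / F y) atTop (𝓝 (1 / l)) := by
    have := r1.inv₀ hl.ne'
    simpa [one_div] using this
  have r3 : Tendsto (deriv F) atTop (𝓝 l) := by
    have := (h2.mul inv0).add_const l
    simp only [mul_zero, zero_add] at this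
    refine this.congr' ?_
    filter_upwards [eventually_gt_atTop 0] with y hy
    field_simp; ring
  have r4 : Tendsto (fun y => y * deriv F y - F y) atTop (𝓝 (-c)) := by
    have := (h2.sub h1).sub_const c
    simp only [sub_zero, zero_sub] at this
    exact this.congr fun y => by ring
  refine ⟨?_, ?_, ?_, ?_⟩
  · obtain ⟨Z, hZ⟩ := eventually_atTop.1 ((r1.eventually (lt_mem_nhds (half_lt_self hl))).and
      ((eventually_gt_atTop Y).and (eventually_gt_atTop 0)))
    refine ⟨1 / max Z 1, by positivity, fun x hx hxδ => ?_⟩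
    have hy : Z ≤ 1 / x := by
      have : max Z 1 < 1 / x := by
        rw [lt_div_iff₀ (by positivity)] at hxδ
        rw [lt_div_iff₀ hx]; linarith
      exact (le_max_left _ _).trans this.le
    obtain ⟨hF, hyY, hy0⟩ := hZ _ hy
    have hF0 : F (1 / x) ≠ 0 := by
      intro h0; rw [h0, zero_div] at hF; linarith
    have c2 : ContDiffAt ℝ 2 F (1 / x) := hY.contDiffAt (Ioi_mem_nhds hyY)
    have c1 : ContDiffAt ℝ 1 (deriv F) (1 / x) := c2.derivWithin (m := 1) (by norm_num)
    have c0 : ContDiffAt ℝ 0 (deriv (deriv F)) (1 / x) := c1.derivWithin (m := 0) (by norm_num)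
    have e2 : D 2 F = deriv (deriv F) := by
      rw [D, iteratedDeriv_succ, iteratedDeriv_one]
    have d0 : HasDerivAt (fun x : ℝ => 1 / x) (-(1 / x) ^ 2) x := by
      simpa [one_div] using hasDerivAt_inv hx.ne'
    have d1 : HasDerivAt (fun x => F (1 / x)) (deriv F (1 / x) * -(1 / x) ^ 2) x :=
      HasDerivAt.comp x (h := fun x : ℝ => 1 / x)
        (c2.differentiableAt (by norm_num)).hasDerivAt d0
    have d2 : HasDerivAt (fun x => deriv F (1 / x)) (D 2 F (1 / x) * -(1 / x) ^ 2) x := by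
      rw [e2]
      exact HasDerivAt.comp x (h := fun x : ℝ => 1 / x)
        (c1.differentiableAt (by norm_num)).hasDerivAt d0
    refine ⟨?_, ?_, ?_⟩
    · have := (hasDerivAt_const x (1:ℝ)).div d1 hF0
      refine this.congr_deriv ?_
      unfold p1; field_simp; ring
    · have := d2.mul ((d0.div d1 hF0).pow 2)
      refine this.congr_deriv ?_
      unfold p2
      simp only [Pi.div_apply, Pi.pow_apply, Nat.add_one_sub_one, pow_one, Nat.cast_ofNat]
      generalize 1 / x = y at *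
      field_simp; ring
    · have k0 : ContinuousAt (fun x : ℝ => 1 / x) x := d0.continuousAt
      have k1 := d1.continuousAt
      have k2 := d2.continuousAt
      have k3 : ContinuousAt (fun x => D 2 F (1 / x)) x := by
        rw [e2]
        exact ContinuousAt.comp (f := fun x : ℝ => 1 / x) c0.continuousAt k0
      have k4 := k0.div k1 hF0
      exact (((k0.pow 2).mul k3).neg.mul (k4.pow 2)).add
        (((continuousAt_const.mul k2).mul (k4.pow 3)).mul ((k0.mul k2).sub k1))
  · have := r2.mul inv0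
    simp only [mul_zero] at this
    refine this.congr' ?_
    filter_upwards [eventually_gt_atTop 0] with y hy
    field_simp
  · have := r3.mul (r2.pow 2)
    have e : 1 / l = l * (1 / l) ^ 2 := by field_simp
    rw [e]; exact this
  · have := (h3.neg.mul (r2.pow 2)).add (((r3.const_mul 2).mul (r2.pow 3)).mul r4)
    have e : -2 * c / l ^ 2 = -0 * (1 / l) ^ 2 + 2 * l * (1 / l) ^ 3 * -c := by
      field_simp; ring
    rw [e]; exact this

lemma cont0 {u v : ℝ → ℝ} {a : ℝ} (hu : Tendsto u atTop (𝓝 a)) (hv : Tendsto v atTop (𝓝 a)) :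
    ContinuousAt (fun x : ℝ => if 0 < x then u (1 / x) else if x < 0 then v (-1 / x) else a) 0 := by
  rw [continuousAt_iff_continuous_left'_right']
  constructor
  · have t1 : Tendsto (fun x : ℝ => -1 / x) (𝓝[<] 0) atTop := by
      have := tendsto_neg_atBot_atTop.comp (tendsto_inv_nhdsLT_zero (𝕜 := ℝ))
      exact this.congr fun x => by simp [div_eq_mul_inv]
    unfold ContinuousWithinAt
    simp only [lt_irrefl, if_false]
    refine (hv.comp t1).congr' ?_
    filter_upwards [self_mem_nhdsWithin] with x hx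
    have hx' : x < 0 := hx
    simp [hx', hx'.not_gt]
  · have t1 : Tendsto (fun x : ℝ => 1 / x) (𝓝[>] 0) atTop := by
      simpa [one_div] using tendsto_inv_nhdsGT_zero (𝕜 := ℝ)
    unfold ContinuousWithinAt
    simp only [lt_irrefl, if_false]
    refine (hu.comp t1).congr' ?_
    filter_upwards [self_mem_nhdsWithin] with x hx
    have hx' : 0 < x := hx
    simp [hx']

lemma ev_pos {u v : ℝ → ℝ} {a x : ℝ} (hx : 0 < x) :
    (fun x : ℝ => if 0 < x then u x else if x < 0 then v x else a) =ᶠ[𝓝 x] u := by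
  filter_upwards [lt_mem_nhds hx] with y hy
  simp [hy]

lemma ev_neg {u v : ℝ → ℝ} {a x : ℝ} (hx : x < 0) :
    (fun x : ℝ => if 0 < x then u x else if x < 0 then v x else a) =ᶠ[𝓝 x] v := by
  filter_upwards [gt_mem_nhds hx] with y hy
  simp [hy, hy.not_gt]

end XmAux583

open XmAux583 in
theorem xmap : XmStmt := by
  intro F G l c hl hF hG
  obtain ⟨⟨δ1, hδ1, a1⟩, a2, a3, a4⟩ := side hl hF
  obtain ⟨⟨δ2, hδ2, b1⟩, b2, b3, b4⟩ := side hl hG
  have e0 : xm F G = fun x : ℝ => if 0 < x then (fun y => 1 / F y) (1 / x) else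
      if x < 0 then (fun y => -(1 / G y)) (-1 / x) else 0 := by
    funext x; simp only [xm, neg_div]
  have key := glue2 (f := xm F G)
    (f1 := fun x : ℝ => if 0 < x then p1 F (1 / x) else if x < 0 then p1 G (-1 / x) else 1 / l)
    (f2 := fun x : ℝ => if 0 < x then p2 F (1 / x) else
      if x < 0 then (fun y => -p2 G y) (-1 / x) else -2 * c / l ^ 2)
    (lt_min hδ1 hδ2) ?_ (by rw [e0]; exact cont0 (v := fun y => -(1 / G y)) a2 (by simpa using b2.neg)) (cont0 a3 b3)
    (cont0 (v := fun y => -p2 G y) a4 (by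
      have e : -2 * c / l ^ 2 = -(-2 * -c / l ^ 2) := by ring
      rw [e]; exact b4.neg))
  · simpa using key
  intro x hx h0
  rw [e0]
  rcases lt_or_gt_of_ne h0 with h | h
  · obtain ⟨k1, k2, k3⟩ := b1 (-x) (by linarith) (by linarith [hx.1, min_le_right δ1 δ2])
    have en : ∀ y : ℝ, -1 / y = 1 / -y := fun y => by rw [neg_div, div_neg]
    have dn : HasDerivAt (fun y : ℝ => -y) (-1) x := hasDerivAt_neg' x
    simp only [if_neg h.not_gt, if_pos h, en]
    refine ⟨HasDerivAt.congr_of_eventuallyEq ?_ (ev_neg h),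
      HasDerivAt.congr_of_eventuallyEq ?_ (ev_neg h), ContinuousAt.congr ?_ (ev_neg h).symm⟩
    · exact (HasDerivAt.comp x (h := fun y : ℝ => -y) k1 dn).neg.congr_deriv (by ring)
    · exact (HasDerivAt.comp x (h := fun y : ℝ => -y) k2 dn).congr_deriv (by ring)
    · exact (ContinuousAt.comp (f := fun y : ℝ => -y) k3 dn.continuousAt).neg
  · obtain ⟨k1, k2, k3⟩ := a1 x h (by linarith [hx.2, min_le_left δ1 δ2])
    simp only [if_pos h]
    exact ⟨k1.congr_of_eventuallyEq (ev_pos h), k2.congr_of_eventuallyEq (ev_pos h),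
      k3.congr (ev_pos h).symm⟩

end Pool.Agent.H113Z.Dist
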